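import Mathlib
import Pool.Agent.K3h86.QI.Upper

/-!
# The `p`-intersection number of complete multipartite graphs with many parts

For all `p ≥ 1` and `n ≥ 2` the `p`-intersection number of the complete `k`-partite graph with `k`
parts of size `n` is asymptotically equal to `(n / 2) log₂ k` as `k → ∞`.

Lower bound: the sets of the vertices of one part overlap in a bounded number of points. There are
only polynomially many (in `t`) possible overlaps, and among the parts with the same overlaps two of
the `n` reduced sets form a cross-intersecting family of pairs of disjoint sets with total size at
most `2 t / n`, so that there are at most `2 ^ (2 t / n)` of them.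

Upper bound: a family of strings over an alphabet of `n` letters such that any two of them show each
pair `(i, j)` of different letters at `p` or more coordinates. Such families are built by induction
on the list of requirements. Two codes `D`, `E` of the same size in the same type class are merged:
the edges of a directed graph on the permutations `σ` of the coordinates are the strings, each
vertex `σ` having the strings of `D ∘ σ` as outgoing and those of `E ∘ σ` as incoming edges. Two
different walks with the same start and the same end and the same sum are separated by `D` in the
first block and by `E` in the last block in which they differ. The rate does not decrease.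
-/

set_option autoImplicit false

namespace Pool.Agent.Results.MP_890668_co.CompleteMultipartite

open Filter Topology
open Pool.Agent.K3h86.QI

/-- For fixed `p ≥ 1` and `n ≥ 2`, `ϑ_p(K_{n,…,n}^{(k)}) ∼ (n / 2) log₂ k` as `k → ∞`. -/
theorem result (n p : ℕ) (hn : 2 ≤ n) (hp : 1 ≤ p) :
    Tendsto (fun k : ℕ =>
      (theta (SimpleGraph.completeMultipartiteGraph fun _ : Fin k => Fin n) p : ℝ) /
        ((n : ℝ) / 2 * Real.logb 2 k)) atTop (𝓝 1) :=
  asymptotic hn hp

end Pool.Agent.Results.MP_890668_co.CompleteMultipartite
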